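import Mathlib

/-!
# Final arithmetic for the determinantal complexity of power sums
-/

set_option autoImplicit false

namespace L5helper42.PS

theorem arith (k d m : ℕ) (hd : 1 ≤ d)
    (h : ∀ a b : ℕ, 1 ≤ a → 1 ≤ b →
      d * (d - 1) ^ k * (a ^ (k + 1) * b ^ (2 * m)) ≤ (a + b) ^ (2 * m + 1) * (2 * b) ^ k) :
    ((k : ℝ) + 1) * ((d : ℝ) - 1) < 4 * Real.exp 1 * ((m : ℝ) + 1) := by
  have h1 := h (k + 1) (2 * m + 1) (by omega) (by omega)
  have h2 : (d : ℝ) * ((d : ℝ) - 1) ^ k * (((k : ℝ) + 1) ^ (k + 1) * (2 * m + 1) ^ (2 * m)) ≤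
      (((k : ℝ) + 1) + (2 * m + 1)) ^ (2 * m + 1) * (2 * (2 * m + 1)) ^ k := by
    have := (Nat.cast_le (α := ℝ)).2 h1
    push_cast [Nat.cast_sub hd] at this
    exact this
  have hB : (0 : ℝ) < 2 * m + 1 := by positivity
  have hK : (0 : ℝ) < (k : ℝ) + 1 := by positivity
  have hd1 : (0 : ℝ) ≤ (d : ℝ) - 1 := by
    have : (1 : ℝ) ≤ d := by exact_mod_cast hd
    linarith
  -- the exponential bound
  have h3 : (((k : ℝ) + 1) + (2 * m + 1)) ^ (2 * m + 1) ≤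
      (2 * m + 1) ^ (2 * m + 1) * Real.exp 1 ^ (k + 1) := by
    have e1 : ((k : ℝ) + 1) + (2 * m + 1) = (2 * m + 1) * (((k : ℝ) + 1) / (2 * m + 1) + 1) := by
      field_simp
    rw [e1, mul_pow]
    refine mul_le_mul_of_nonneg_left ?_ (by positivity)
    have e2 : ((k : ℝ) + 1) / (2 * m + 1) + 1 ≤ Real.exp (((k : ℝ) + 1) / (2 * m + 1)) :=
      Real.add_one_le_exp _
    refine (pow_le_pow_left₀ (by positivity) e2 _).trans (le_of_eq ?_)
    rw [← Real.exp_nat_mul, ← Real.exp_nat_mul]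
    congr 1
    push_cast
    field_simp
  have h4 : (((d : ℝ) - 1) * ((k : ℝ) + 1)) ^ (k + 1) ≤ (2 * Real.exp 1 * (2 * m + 1)) ^ (k + 1) := by
    have e1 : (((d : ℝ) - 1) * ((k : ℝ) + 1)) ^ (k + 1) ≤
        (d : ℝ) * ((d : ℝ) - 1) ^ k * ((k : ℝ) + 1) ^ (k + 1) := by
      rw [mul_pow, pow_succ' ((d : ℝ) - 1)]
      refine mul_le_mul_of_nonneg_right (mul_le_mul_of_nonneg_right (by linarith) ?_) ?_ <;>
        positivity
    have e2 : (2 * (m : ℝ) + 1) ^ (2 * m) *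
        ((d : ℝ) * ((d : ℝ) - 1) ^ k * ((k : ℝ) + 1) ^ (k + 1)) ≤
        (2 * (m : ℝ) + 1) ^ (2 * m) * (2 * Real.exp 1 * (2 * m + 1)) ^ (k + 1) := by
      calc (2 * (m : ℝ) + 1) ^ (2 * m) * ((d : ℝ) * ((d : ℝ) - 1) ^ k * ((k : ℝ) + 1) ^ (k + 1))
          = (d : ℝ) * ((d : ℝ) - 1) ^ k * (((k : ℝ) + 1) ^ (k + 1) * (2 * m + 1) ^ (2 * m)) := by
            ring
        _ ≤ _ := h2
        _ ≤ (2 * m + 1) ^ (2 * m + 1) * Real.exp 1 ^ (k + 1) * (2 * (2 * m + 1)) ^ k :=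
            mul_le_mul_of_nonneg_right h3 (by positivity)
        _ ≤ (2 * m + 1) ^ (2 * m + 1) * Real.exp 1 ^ (k + 1) * (2 * (2 * m + 1)) ^ k * 2 := by
            have : (0 : ℝ) ≤ (2 * m + 1) ^ (2 * m + 1) * Real.exp 1 ^ (k + 1) *
              (2 * (2 * m + 1)) ^ k := by positivity
            linarith
        _ = _ := by
            rw [mul_pow, mul_pow, mul_pow]
            ring
    exact e1.trans (le_of_mul_le_mul_left e2 (by positivity))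
  have h5 : ((d : ℝ) - 1) * ((k : ℝ) + 1) ≤ 2 * Real.exp 1 * (2 * m + 1) :=
    le_of_pow_le_pow_left₀ (Nat.succ_ne_zero k) (by positivity) h4
  have h6 : (0 : ℝ) < Real.exp 1 := Real.exp_pos 1
  nlinarith

end L5helper42.PS
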