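import Pool.Agent.L5helper42.PS.Points

/-!
# Setting the first variable of the power sum equal to `1`
-/

set_option autoImplicit false

open Finset MvPolynomial

namespace L5helper42.PS

/-- substitution `X_0 = 1`, `X_{i+1} ↦ X_i` -/
noncomputable def sub1 (n : ℕ) : MvPolynomial (Fin (n + 1)) ℂ →ₐ[ℂ] MvPolynomial (Fin n) ℂ :=
  aeval (Fin.cons 1 X)

lemma sub1_sum (k d : ℕ) : sub1 (k + 1) (∑ i : Fin (k + 2), X i ^ d) = fer k d := by
  rw [map_sum, Fin.sum_univ_succ, fer, sub1]
  simp

lemma totalDegree_aeval_le {σ τ : Type*} (f : σ → MvPolynomial τ ℂ)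
    (hf : ∀ i, (f i).totalDegree ≤ 1) (P : MvPolynomial σ ℂ) :
    (aeval f P).totalDegree ≤ P.totalDegree := by
  classical
  rw [aeval_def, eval₂_eq]
  refine (totalDegree_finsetSum _ _).trans (Finset.sup_le fun s hs => ?_)
  refine (totalDegree_mul _ _).trans ?_
  rw [algebraMap_eq, totalDegree_C, zero_add]
  refine (totalDegree_finsetProd _ _).trans ?_
  refine (Finset.sum_le_sum (g := fun i => s i) fun i _ => ?_).trans (le_totalDegree hs)
  refine (totalDegree_pow _ _).trans ?_
  calc s i * (f i).totalDegree ≤ s i * 1 := Nat.mul_le_mul_left _ (hf i)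
    _ = s i := mul_one _

lemma totalDegree_sub1 (n : ℕ) (P : MvPolynomial (Fin (n + 1)) ℂ) :
    (sub1 n P).totalDegree ≤ P.totalDegree := by
  refine totalDegree_aeval_le _ (fun i => ?_) P
  refine Fin.cases ?_ (fun j => ?_) i
  · simp
  · simp [totalDegree_X]

/-- coefficientwise limits of polynomials of bounded degree commute with linear functionals -/
lemma tendsto_linear {σ : Type*} [Finite σ] (L : MvPolynomial σ ℂ →ₗ[ℂ] ℂ)
    (P : MvPolynomial σ ℂ) (Pk : ℕ → MvPolynomial σ ℂ) (D : ℕ)
    (hD : ∀ k, (Pk k).totalDegree ≤ D)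
    (h : ∀ e, Filter.Tendsto (fun k => coeff e (Pk k)) Filter.atTop (nhds (coeff e P))) :
    Filter.Tendsto (fun k => L (Pk k)) Filter.atTop (nhds (L P)) := by
  classical
  cases nonempty_fintype σ
  let T : Finset (σ →₀ ℕ) := Finset.Iic (Finsupp.equivFunOnFinite.symm fun _ => max D P.totalDegree)
  have hT : ∀ Q : MvPolynomial σ ℂ, Q.totalDegree ≤ max D P.totalDegree → Q.support ⊆ T := by
    intro Q hQ e he
    rw [Finset.mem_Iic]
    intro i
    simp only [Finsupp.equivFunOnFinite_symm_apply_apply]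
    have h1 := le_totalDegree he
    have h2 : e i ≤ e.sum fun _ e => e := by
      by_cases hi : i ∈ e.support
      · exact Finset.single_le_sum (f := fun i => e i) (fun _ _ => Nat.zero_le _) hi
      · rw [Finsupp.notMem_support_iff.1 hi]
        exact Nat.zero_le _
    exact h2.trans (h1.trans hQ)
  have hL : ∀ Q : MvPolynomial σ ℂ, Q.totalDegree ≤ max D P.totalDegree →
      L Q = ∑ e ∈ T, coeff e Q * L (monomial e 1) := by
    intro Q hQ
    conv_lhs => rw [Q.as_sum, map_sum]
    rw [← Finset.sum_subset (hT Q hQ)]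
    · refine Finset.sum_congr rfl fun e _ => ?_
      have : monomial e (coeff e Q) = coeff e Q • monomial e (1 : ℂ) := by
        rw [smul_monomial, smul_eq_mul, mul_one]
      rw [this, map_smul, smul_eq_mul]
    · intro e _ he
      rw [notMem_support_iff.1 he, zero_mul]
  rw [hL P (le_max_right _ _)]
  simp_rw [fun k => hL (Pk k) ((hD k).trans (le_max_left _ _))]
  exact tendsto_finsetSum _ fun e _ => (h e).mul_const _

end L5helper42.PS
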