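import Pool.Agent.L5helper42.PS.Points
import Pool.Agent.L5helper42.PS.Arith
import Pool.Agent.L5helper42.PS.Subst
import Pool.Agent.L5helper18.DC.Persist
import Pool.Agent.L5helper59.DC.Nondeg

/-!
# The border determinantal complexity of power sums
-/

set_option autoImplicit false

open Finset MvPolynomial

namespace L5helper42.PS

theorem totalDegree_det_le {σ : Type*} {n : ℕ} (A : Matrix (Fin n) (Fin n) (MvPolynomial σ ℂ))
    (hA : ∀ i j, (A i j).totalDegree ≤ 1) : A.det.totalDegree ≤ n := by
  rw [Matrix.det_apply]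
  refine (totalDegree_finsetSum _ _).trans (Finset.sup_le fun s _ => ?_)
  refine (totalDegree_smul_le _ _).trans ?_
  refine (totalDegree_finsetProd _ _).trans ?_
  refine (Finset.sum_le_sum fun i _ => hA _ _).trans ?_
  simp

theorem main (N d n : ℕ) (hN : 2 ≤ N) (hd : 2 ≤ d)
    (A : ℕ → Matrix (Fin n) (Fin n) (MvPolynomial (Fin N) ℂ))
    (hA : ∀ k i j, (A k i j).totalDegree ≤ 1)
    (hlim : ∀ e, Filter.Tendsto (fun k => coeff e (A k).det) Filter.atTop
      (nhds (coeff e (∑ i : Fin N, X i ^ d)))) :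
    ((N : ℝ) - 1) * ((d : ℝ) - 1) < 4 * Real.exp 1 * n := by
  classical
  obtain ⟨k, rfl⟩ : ∃ k, N = k + 2 := ⟨N - 2, by omega⟩
  -- matrices of size zero do not occur
  rcases n with _ | m
  · exfalso
    have h1 := hlim (Finsupp.single 0 d)
    have h2 : ∀ j, coeff (Finsupp.single (0 : Fin (k + 2)) d) (A j).det = 0 := by
      intro j
      rw [Matrix.det_isEmpty, coeff_one, if_neg]
      intro h
      have := DFunLike.congr_fun h 0
      simp at this
      omega
    simp_rw [h2] at h1
    have h3 : coeff (Finsupp.single (0 : Fin (k + 2)) d)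
        (∑ i : Fin (k + 2), (X i : MvPolynomial (Fin (k + 2)) ℂ) ^ d) = 1 := by
      rw [coeff_sum, Finset.sum_eq_single 0]
      · rw [coeff_X_pow, if_pos rfl]
      · intro i _ hi
        rw [coeff_X_pow, if_neg]
        intro h
        have := DFunLike.congr_fun h 0
        rw [Finsupp.single_eq_of_ne (Ne.symm hi), Finsupp.single_eq_same] at this
        omega
      · intro h
        exact absurd (mem_univ _) h
    rw [h3] at h1
    have := tendsto_nhds_unique h1 tendsto_const_nhds
    exact one_ne_zero this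
  -- substitute `X_0 = 1`
  let Fk : ℕ → MvPolynomial (Fin (k + 1)) ℂ := fun j => sub1 (k + 1) (A j).det
  have hdet : ∀ j, Fk j = ((A j).map (sub1 (k + 1))).det := by
    intro j
    exact AlgHom.map_det (sub1 (k + 1)) (A j)
  have hmapdeg : ∀ j a b, (((A j).map (sub1 (k + 1))) a b).totalDegree ≤ 1 := by
    intro j a b
    exact (totalDegree_sub1 _ _).trans (hA j a b)
  have hdeg : ∀ j, (Fk j).totalDegree ≤ m + 1 := by
    intro j
    rw [hdet]
    exact totalDegree_det_le _ (hmapdeg j)
  have hlim' : ∀ e, Filter.Tendsto (fun j => coeff e (Fk j)) Filter.atTop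
      (nhds (coeff e (fer k d))) := by
    intro e
    have := tendsto_linear ((lcoeff ℂ e).comp (sub1 (k + 1)).toLinearMap)
      (∑ i : Fin (k + 2), X i ^ d) (fun j => (A j).det) (m + 1)
      (fun j => totalDegree_det_le _ (hA j)) hlim
    simp only [LinearMap.comp_apply, AlgHom.toLinearMap_apply, sub1_sum] at this
    exact this
  obtain ⟨S, hS, h0, h1, h2⟩ := exists_points k d hd
  obtain ⟨j, S', hS', h0', h1', h2'⟩ := Pool.Agent.L5helper18.DC.persist (ι := Fin (k + 1))
    (κ := Fin k) (by simp) (fer k d) Fk (m + 1) hdeg hlim' (dir k d) S h0 h1 h2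
  have h3 : ∀ a b : ℕ, 1 ≤ a → 1 ≤ b →
      d * (d - 1) ^ k * (a ^ (k + 1) * b ^ (2 * m)) ≤ (a + b) ^ (2 * m + 1) * (2 * b) ^ k := by
    intro a b ha hb
    have h := L5helper59.DC.card_nondeg_le (ι := Fin (k + 1)) (κ := Fin k) (by simp) m
      (Fk j) _ (hmapdeg j) (hdet j).symm (dir k d) S' h0' h1' h2' a b ha hb
    rw [hS', hS, Fintype.card_fin, Fintype.card_fin] at h
    exact h
  have h4 := arith k d m (by omega) h3
  push_cast
  have e1 : ((k : ℝ) + 2 - 1) = k + 1 := by ring
  rw [e1]
  exact h4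

end L5helper42.PS
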