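import Mathlib

/-!
# Points of the affine Fermat hypersurface with prescribed tangent direction

`fer k d = 1 + ∑ i, X_i ^ d` in `k + 1` variables has at least `d (d - 1) ^ k` zeros `p` at which
the gradient is parallel to `(c_0, …, c_k)`, `c_i = 2 ^ (i (d - 1))`, and all of them are
nondegenerate.
-/

set_option autoImplicit false

open Finset MvPolynomial

namespace L5helper42.PS

/-- the affine Fermat polynomial `1 + ∑ X_i ^ d` -/
noncomputable def fer (k d : ℕ) : MvPolynomial (Fin (k + 1)) ℂ :=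
  1 + ∑ i : Fin (k + 1), X i ^ d

/-- the weights `2 ^ i` -/
noncomputable def bb {k : ℕ} (i : Fin (k + 1)) : ℂ := 2 ^ (i : ℕ)

/-- the tangent directions `e_{j+1} - c_{j+1} e_0` -/
noncomputable def dir (k d : ℕ) (e : Fin k) : Fin (k + 1) → ℂ :=
  Fin.cons (-(bb e.succ) ^ (d - 1)) (Pi.single e 1)

lemma bb_ne {k : ℕ} (i : Fin (k + 1)) : bb i ≠ 0 := pow_ne_zero _ two_ne_zero

lemma bb_zero {k : ℕ} : bb (0 : Fin (k + 1)) = 1 := by simp [bb]

lemma sum_dir (k d : ℕ) (e : Fin k) (g : Fin (k + 1) → ℂ) :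
    ∑ i, dir k d e i * g i = g e.succ - bb e.succ ^ (d - 1) * g 0 := by
  rw [Fin.sum_univ_succ]
  simp only [dir, Fin.cons_zero, Fin.cons_succ]
  rw [Finset.sum_eq_single e]
  · rw [Pi.single_eq_same]
    ring
  · intro j _ hj
    rw [Pi.single_eq_of_ne hj, zero_mul]
  · intro h
    exact absurd (mem_univ _) h

lemma pderiv_fer (k d : ℕ) (i : Fin (k + 1)) :
    pderiv i (fer k d) = C (d : ℂ) * X i ^ (d - 1) := by
  rw [fer, map_add, map_sum, Derivation.map_one_eq_zero, zero_add]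
  rw [Finset.sum_eq_single i]
  · rw [pderiv_pow, pderiv_X_self, mul_one]
    simp
  · intro j _ hj
    rw [pderiv_pow, pderiv_X_of_ne hj, mul_zero]
  · intro h
    exact absurd (mem_univ _) h

lemma eval_fer (k d : ℕ) (p : Fin (k + 1) → ℂ) : eval p (fer k d) = 1 + ∑ i, p i ^ d := by
  simp [fer]

lemma eval_pderiv_fer (k d : ℕ) (p : Fin (k + 1) → ℂ) (i : Fin (k + 1)) :
    eval p (pderiv i (fer k d)) = d * p i ^ (d - 1) := by
  rw [pderiv_fer]
  simp

lemma eval_pderiv2_fer (k d : ℕ) (p : Fin (k + 1) → ℂ) (i j : Fin (k + 1)) :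
    eval p (pderiv j (pderiv i (fer k d))) =
      if j = i then (d : ℂ) * (d - 1 : ℕ) * p i ^ (d - 1 - 1) else 0 := by
  rw [pderiv_fer, pderiv_C_mul, pderiv_pow]
  split_ifs with h
  · subst h
    rw [pderiv_X_self]
    simp
    ring
  · rw [pderiv_X_of_ne (Ne.symm h)]
    simp

/-- the parameter: `(d-1)`-th roots of unity (the first is `1`) -/
noncomputable def zz {k d : ℕ} (ζ : Fin k → rootsOfUnity (d - 1) ℂ) (i : Fin (k + 1)) : ℂ :=
  Fin.cons (α := fun _ => ℂ) 1 (fun j => ((ζ j : ℂˣ) : ℂ)) i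

lemma zz_pow {k d : ℕ} (ζ : Fin k → rootsOfUnity (d - 1) ℂ) (i : Fin (k + 1)) :
    zz ζ i ^ (d - 1) = 1 := by
  refine Fin.cases ?_ (fun j => ?_) i
  · simp [zz]
  · simp only [zz, Fin.cons_succ]
    have := congrArg Units.val ((mem_rootsOfUnity (d - 1) (ζ j : ℂˣ)).1 (ζ j).2)
    rwa [Units.val_pow_eq_pow_val, Units.val_one] at this

lemma zz_norm {k d : ℕ} (hd : 2 ≤ d) (ζ : Fin k → rootsOfUnity (d - 1) ℂ) (i : Fin (k + 1)) :
    ‖zz ζ i‖ = 1 := by
  have h := congrArg norm (zz_pow ζ i)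
  rw [norm_pow, norm_one] at h
  exact (pow_eq_one_iff_of_nonneg (norm_nonneg _) (by omega)).1 h

lemma zz_pow_d {k d : ℕ} (hd : 2 ≤ d) (ζ : Fin k → rootsOfUnity (d - 1) ℂ) (i : Fin (k + 1)) :
    zz ζ i ^ d = zz ζ i := by
  obtain ⟨e, rfl⟩ : ∃ e, d = e + 1 := ⟨d - 1, by omega⟩
  have h := zz_pow ζ i
  rw [Nat.add_sub_cancel] at h
  rw [pow_succ, h, one_mul]

/-- `∑ b_i ^ d ζ_i` -/
noncomputable def sz {k d : ℕ} (ζ : Fin k → rootsOfUnity (d - 1) ℂ) : ℂ :=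
  ∑ i, bb i ^ d * zz ζ i

lemma geo (d k : ℕ) (hd : 1 ≤ d) : ∑ i ∈ range k, (2 : ℝ) ^ (i * d) < 2 ^ (k * d) := by
  induction k with
  | zero => simp
  | succ k ih =>
    rw [sum_range_succ]
    have h1 : (2 : ℝ) ^ ((k + 1) * d) = 2 ^ (k * d) * 2 ^ d := by rw [← pow_add]; ring_nf
    have h2 : (2 : ℝ) ^ 1 ≤ 2 ^ d := pow_le_pow_right₀ (by norm_num) hd
    have h3 : (0 : ℝ) < 2 ^ (k * d) := by positivity
    rw [h1]
    nlinarith

lemma sz_ne {k d : ℕ} (hd : 2 ≤ d) (ζ : Fin k → rootsOfUnity (d - 1) ℂ) : sz ζ ≠ 0 := by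
  intro h
  rw [sz, Fin.sum_univ_castSucc] at h
  have h1 : bb (Fin.last k) ^ d * zz ζ (Fin.last k) =
      -∑ i : Fin k, bb i.castSucc ^ d * zz ζ i.castSucc := by
    linear_combination h
  have h2 : (2 : ℝ) ^ (k * d) = ‖bb (Fin.last k) ^ d * zz ζ (Fin.last k)‖ := by
    rw [norm_mul, zz_norm hd, mul_one, bb, Fin.val_last, ← pow_mul, norm_pow]
    simp
  rw [h1, norm_neg] at h2
  have h3 : ‖∑ i : Fin k, bb i.castSucc ^ d * zz ζ i.castSucc‖ ≤ ∑ i : Fin k, (2 : ℝ) ^ ((i : ℕ) * d) := by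
    refine (norm_sum_le _ _).trans (le_of_eq (sum_congr rfl fun i _ => ?_))
    rw [norm_mul, zz_norm hd, mul_one, bb, Fin.val_castSucc, ← pow_mul, norm_pow]
    simp
  rw [Fin.sum_univ_eq_sum_range (fun i => (2 : ℝ) ^ (i * d)) k] at h3
  have := geo d k (by omega)
  linarith

lemma exists_root {k d : ℕ} (hd : 2 ≤ d) (ζ : Fin k → rootsOfUnity (d - 1) ℂ) :
    ∃ s : ℂ, s ^ d = -(sz ζ)⁻¹ := IsAlgClosed.exists_pow_nat_eq _ (by omega)

open Classical in
/-- the scaling factor -/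
noncomputable def ss {k d : ℕ} (ζ : Fin k → rootsOfUnity (d - 1) ℂ) : ℂ :=
  if h : ∃ s : ℂ, s ^ d = -(sz ζ)⁻¹ then h.choose else 0

lemma ss_pow {k d : ℕ} (hd : 2 ≤ d) (ζ : Fin k → rootsOfUnity (d - 1) ℂ) :
    ss ζ ^ d = -(sz ζ)⁻¹ := by
  rw [ss, dif_pos (exists_root hd ζ)]
  exact (exists_root hd ζ).choose_spec

lemma ss_ne {k d : ℕ} (hd : 2 ≤ d) (ζ : Fin k → rootsOfUnity (d - 1) ℂ) : ss ζ ≠ 0 := by
  intro h
  have := ss_pow hd ζ
  rw [h, zero_pow (by omega)] at this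
  have h2 := inv_ne_zero (sz_ne hd ζ)
  apply h2
  linear_combination this

/-- the points -/
noncomputable def pt {k d : ℕ} (q : (Fin k → rootsOfUnity (d - 1) ℂ) × rootsOfUnity d ℂ)
    (i : Fin (k + 1)) : ℂ :=
  ss q.1 * ((q.2 : ℂˣ) : ℂ) * (bb i * zz q.1 i)

lemma pt_inj {k d : ℕ} (hd : 2 ≤ d) :
    Function.Injective (pt : (Fin k → rootsOfUnity (d - 1) ℂ) × rootsOfUnity d ℂ → _) := by
  rintro ⟨ζ, η⟩ ⟨ζ', η'⟩ h
  have h0 := congrFun h 0
  simp only [pt, bb_zero, zz, Fin.cons_zero, mul_one] at h0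
  have hne : ss ζ * ((η : ℂˣ) : ℂ) ≠ 0 := mul_ne_zero (ss_ne hd ζ) (Units.ne_zero _)
  have h1 : ζ = ζ' := by
    funext j
    have hj := congrFun h j.succ
    simp only [pt, zz, Fin.cons_succ] at hj
    rw [← h0] at hj
    have h2 := mul_left_cancel₀ (bb_ne _) (mul_left_cancel₀ hne hj)
    exact Subtype.ext (Units.ext h2)
  subst h1
  have h2 := mul_left_cancel₀ (ss_ne hd ζ) h0
  have h3 : η = η' := Subtype.ext (Units.ext h2)
  rw [h3]

lemma eta_pow {d : ℕ} (η : rootsOfUnity d ℂ) : ((η : ℂˣ) : ℂ) ^ d = 1 := by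
  have := congrArg Units.val ((mem_rootsOfUnity d (η : ℂˣ)).1 η.2)
  rwa [Units.val_pow_eq_pow_val, Units.val_one] at this

lemma pt_ne {k d : ℕ} (hd : 2 ≤ d) (q : (Fin k → rootsOfUnity (d - 1) ℂ) × rootsOfUnity d ℂ)
    (i : Fin (k + 1)) : pt q i ≠ 0 := by
  refine mul_ne_zero (mul_ne_zero (ss_ne hd _) (Units.ne_zero _)) (mul_ne_zero (bb_ne _) ?_)
  intro h
  have := zz_norm hd q.1 i
  rw [h, norm_zero] at this
  exact zero_ne_one this

lemma pt_pow {k d : ℕ} (q : (Fin k → rootsOfUnity (d - 1) ℂ) × rootsOfUnity d ℂ)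
    (i : Fin (k + 1)) :
    pt q i ^ (d - 1) = (ss q.1 * ((q.2 : ℂˣ) : ℂ)) ^ (d - 1) * bb i ^ (d - 1) := by
  rw [pt, mul_pow, mul_pow (bb i), zz_pow, mul_one]

lemma eval_pt {k d : ℕ} (hd : 2 ≤ d)
    (q : (Fin k → rootsOfUnity (d - 1) ℂ) × rootsOfUnity d ℂ) :
    eval (pt q) (fer k d) = 0 := by
  rw [eval_fer]
  have h : ∀ i, pt q i ^ d = ss q.1 ^ d * (bb i ^ d * zz q.1 i) := by
    intro i
    rw [pt, mul_pow, mul_pow, mul_pow, eta_pow, zz_pow_d hd]
    ring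
  simp_rw [h]
  rw [← mul_sum, ss_pow hd, ← sz]
  have := sz_ne hd q.1
  field_simp
  ring

lemma grad_pt {k d : ℕ}
    (q : (Fin k → rootsOfUnity (d - 1) ℂ) × rootsOfUnity d ℂ) (e : Fin k) :
    ∑ i, dir k d e i * eval (pt q) (pderiv i (fer k d)) = 0 := by
  rw [sum_dir k d e (fun i => eval (pt q) (pderiv i (fer k d)))]
  simp only [eval_pderiv_fer, pt_pow, bb_zero]
  ring

lemma nondeg_pt {k d : ℕ} (hd : 2 ≤ d)
    (q : (Fin k → rootsOfUnity (d - 1) ℂ) × rootsOfUnity d ℂ) (z : Fin (k + 1) → ℂ)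
    (h1 : ∑ i, z i * eval (pt q) (pderiv i (fer k d)) = 0)
    (h2 : ∀ e, ∑ i, ∑ j, z j * dir k d e i * eval (pt q) (pderiv j (pderiv i (fer k d))) = 0) :
    z = 0 := by
  have hd0 : (d : ℂ) ≠ 0 := by
    have : d ≠ 0 := by omega
    exact_mod_cast this
  have hd1 : ((d - 1 : ℕ) : ℂ) ≠ 0 := by
    have : d - 1 ≠ 0 := by omega
    exact_mod_cast this
  -- the second order conditions
  have h3 : ∀ e : Fin k, z e.succ * pt q e.succ ^ (d - 1 - 1) =
      bb e.succ ^ (d - 1) * (z 0 * pt q 0 ^ (d - 1 - 1)) := by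
    intro e
    have h4 := h2 e
    have h5 : ∀ i, ∑ j, z j * dir k d e i * eval (pt q) (pderiv j (pderiv i (fer k d))) =
        dir k d e i * (z i * ((d : ℂ) * (d - 1 : ℕ) * pt q i ^ (d - 1 - 1))) := by
      intro i
      rw [Finset.sum_eq_single i]
      · rw [eval_pderiv2_fer, if_pos rfl]
        ring
      · intro j _ hj
        rw [eval_pderiv2_fer, if_neg hj, mul_zero]
      · intro h
        exact absurd (mem_univ _) h
    simp_rw [h5] at h4
    rw [sum_dir k d e (fun i => z i * ((d : ℂ) * (d - 1 : ℕ) * pt q i ^ (d - 1 - 1)))] at h4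
    have h6 : (d : ℂ) * (d - 1 : ℕ) * (z e.succ * pt q e.succ ^ (d - 1 - 1) -
      bb e.succ ^ (d - 1) * (z 0 * pt q 0 ^ (d - 1 - 1))) = 0 := by
      linear_combination h4
    exact sub_eq_zero.1 ((mul_eq_zero.1 h6).resolve_left (mul_ne_zero hd0 hd1))
  -- hence `z` is a multiple of the point
  have hpp : ∀ i, pt q i ^ (d - 1 - 1) * pt q i = pt q i ^ (d - 1) := by
    intro i
    rw [← pow_succ]
    congr 1
    omega
  have h4 : ∀ i, z i = (z 0 / pt q 0) * pt q i := by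
    intro i
    refine Fin.cases ?_ (fun e => ?_) i
    · field_simp [pt_ne hd q 0]
    · have ha := h3 e
      have hb := hpp e.succ
      have hc := hpp 0
      rw [pt_pow] at hb hc
      rw [bb_zero, one_pow, mul_one] at hc
      have hne := pow_ne_zero (d - 1 - 1) (pt_ne hd q e.succ)
      have h0 := pt_ne hd q 0
      have h7 : pt q e.succ ^ (d - 1 - 1) * (z e.succ * pt q 0) =
          pt q e.succ ^ (d - 1 - 1) * (z 0 * pt q e.succ) := by
        have e1 : pt q e.succ ^ (d - 1 - 1) * (z e.succ * pt q 0) =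
          bb e.succ ^ (d - 1) * z 0 * (pt q 0 ^ (d - 1 - 1) * pt q 0) := by
          linear_combination pt q 0 * ha
        have e2 : pt q e.succ ^ (d - 1 - 1) * (z 0 * pt q e.succ) =
          z 0 * (pt q e.succ ^ (d - 1 - 1) * pt q e.succ) := by ring
        rw [e1, e2, hb, hc]
        ring
      have h8 := mul_left_cancel₀ hne h7
      rw [div_mul_eq_mul_div, eq_div_iff h0, h8]
  -- and the first order condition finishes
  have h5 : (z 0 / pt q 0) * (d * (ss q.1 * ((q.2 : ℂˣ) : ℂ)) ^ d * sz q.1) = 0 := by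
    rw [← h1, sz, mul_sum, mul_sum]
    refine sum_congr rfl fun i _ => ?_
    rw [h4 i, eval_pderiv_fer]
    have e1 : pt q i * pt q i ^ (d - 1) = (ss q.1 * ((q.2 : ℂˣ) : ℂ)) ^ d * (bb i ^ d * zz q.1 i) := by
      rw [← pow_succ', show d - 1 + 1 = d by omega, pt, mul_pow, mul_pow (bb i), zz_pow_d hd]
    have e2 : z 0 / pt q 0 * pt q i * (↑d * pt q i ^ (d - 1)) =
      z 0 / pt q 0 * (d * (pt q i * pt q i ^ (d - 1))) := by ring
    rw [e2, e1]
    ring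
  have h6 : z 0 / pt q 0 = 0 := by
    refine (mul_eq_zero.1 h5).resolve_right (mul_ne_zero (mul_ne_zero hd0 (pow_ne_zero _ ?_)) (sz_ne hd _))
    exact mul_ne_zero (ss_ne hd _) (Units.ne_zero _)
  funext i
  rw [h4 i, h6, zero_mul, Pi.zero_apply]

/-- the set of points -/
theorem exists_points (k d : ℕ) (hd : 2 ≤ d) :
    ∃ S : Finset (Fin (k + 1) → ℂ), S.card = d * (d - 1) ^ k ∧
      (∀ p ∈ S, eval p (fer k d) = 0) ∧
      (∀ p ∈ S, ∀ e, ∑ i, dir k d e i * eval p (pderiv i (fer k d)) = 0) ∧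
      (∀ p ∈ S, ∀ z : Fin (k + 1) → ℂ, ∑ i, z i * eval p (pderiv i (fer k d)) = 0 →
        (∀ e, ∑ i, ∑ j, z j * dir k d e i * eval p (pderiv j (pderiv i (fer k d))) = 0) →
        z = 0) := by
  classical
  have i1 : NeZero d := ⟨by omega⟩
  have i2 : NeZero (d - 1) := ⟨by omega⟩
  let _ : Fintype (rootsOfUnity d ℂ) := Fintype.ofFinite _
  let _ : Fintype (rootsOfUnity (d - 1) ℂ) := Fintype.ofFinite _
  refine ⟨univ.image (pt : (Fin k → rootsOfUnity (d - 1) ℂ) × rootsOfUnity d ℂ → _), ?_, ?_, ?_, ?_⟩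
  · rw [card_image_of_injective _ (pt_inj hd), card_univ, Fintype.card_prod, Fintype.card_fun,
      Fintype.card_fin]
    rw [← Nat.card_eq_fintype_card, ← Nat.card_eq_fintype_card, Complex.card_rootsOfUnity,
      Complex.card_rootsOfUnity, mul_comm]
  · intro p hp
    obtain ⟨q, _, rfl⟩ := mem_image.1 hp
    exact eval_pt hd q
  · intro p hp
    obtain ⟨q, _, rfl⟩ := mem_image.1 hp
    exact grad_pt q
  · intro p hp
    obtain ⟨q, _, rfl⟩ := mem_image.1 hp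
    exact nondeg_pt hd q

end L5helper42.PS
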